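import Mathlib
import Pool.Agent.U174.AK.Stm

/-! Project AK (helper174), package CLAIM: the induction on the number of blocks of quantifiers. -/

set_option autoImplicit false

namespace Pool.Agent.U467.AK

open IsLocalRing Pool.Agent.U174.AK

section
variable {F F' K L : Type} [Field F] [Field F'] [Field K] [Field L]
  {OF : ValuationSubring F} {O' : ValuationSubring F'} {O : ValuationSubring K}
  {P : ValuationSubring L}

theorem rs_surj (O : ValuationSubring K) (r : ResidueField O) : ∃ x : K, rs O x = r := by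
  obtain ⟨a, rfl⟩ := residue_surjective r
  refine ⟨a, ?_⟩
  unfold rs
  rw [dif_pos a.2]

theorem comp_res {ι : VEmb OF O'} {i' : VEmb O' O} {i : VEmb OF O}
    (h : ∀ x, i'.f (ι.f x) = i.f x) (r : ResidueField OF) : i'.res (ι.res r) = i.res r := by
  obtain ⟨x, rfl⟩ := rs_surj OF r
  rw [VEmb.res_rs, VEmb.res_rs, VEmb.res_rs, h]

theorem comp_val {ι : VEmb OF O'} {i' : VEmb O' O} {i : VEmb OF O}
    (h : ∀ x, i'.f (ι.f x) = i.f x) (g : OF.ValueGroup) : i'.val (ι.val g) = i.val g := by
  obtain ⟨x, rfl⟩ := OF.valuation_surjective g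
  rw [VEmb.val_valuation, VEmb.val_valuation, VEmb.val_valuation, h]

theorem pure_comp {ι : VEmb OF O'} {i' : VEmb O' O} {i : VEmb OF O}
    (h : ∀ x, i'.f (ι.f x) = i.f x) (hp : Pure i) : Pure ι := by
  rintro γ m hm ⟨δ, hδ⟩
  obtain ⟨ε, hε⟩ := hp (i'.val γ) m hm ⟨δ, by rw [← map_pow, ← hδ, comp_val h]⟩
  refine ⟨ε, i'.val_strictMono.injective ?_⟩
  rw [comp_val h, hε]

/-- a move in `K` -/
theorem move (hN : S_NICE) (s : OF.ValueGroupˣ →* Fˣ) (i : VEmb OF O) (hF : Countable F)
    (hs : Sec OF s) (hO : Big O) (hp : Pure i) {a b c : ℕ} (x' : Fin a → K)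
    (y' : Fin b → ResidueField O) (z' : Fin c → O.ValueGroup) :
    ∃ (F' : Type) (_ : Field F') (O' : ValuationSubring F') (s' : O'.ValueGroupˣ →* F'ˣ)
      (ι : VEmb OF O') (i' : VEmb O' O), Countable F' ∧ HenselianLocalRing O' ∧ Sec O' s' ∧
      (∀ x, i'.f (ι.f x) = i.f x) ∧
      (∀ γ : OF.ValueGroupˣ, ((s' (Units.map ι.val γ) : F'ˣ) : F') = ι.f ((s γ : Fˣ) : F)) ∧
      Pure i' ∧ (∃ x'' : Fin a → F', ∀ k, i'.f (x'' k) = x' k) ∧
      (∃ y'' : Fin b → ResidueField O', ∀ k, i'.res (y'' k) = y' k) ∧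
      (∃ z'' : Fin c → O'.ValueGroup, ∀ k, i'.val (z'' k) = z' k) := by
  let B : Fin a ⊕ (Fin b ⊕ Fin c) → K :=
    Sum.elim x' (Sum.elim (fun k => (rs_surj O (y' k)).choose) (fun k => pre O (z' k)))
  obtain ⟨e, he⟩ := exists_surjective_nat (Option (Fin a ⊕ (Fin b ⊕ Fin c)))
  let A : ℕ → K := fun n => (e n).elim 0 B
  obtain ⟨F', iF, O', s', ι, i', h1, h2, h3, h4, h5, h6, h7⟩ := hN F K OF O s i hF hs hO hp A
  have hA : ∀ w, ∃ x, i'.f x = B w := by
    intro w
    obtain ⟨n, hn⟩ := he (some w)
    obtain ⟨x, hx⟩ := h6 n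
    refine ⟨x, ?_⟩
    rw [hx]
    show (e n).elim 0 B = B w
    rw [hn]
    rfl
  refine ⟨F', iF, O', s', ι, i', h1, h2, h3, h4, h5, h7, ?_, ?_, ?_⟩
  · choose u hu using fun k => hA (Sum.inl k)
    exact ⟨u, hu⟩
  · choose u hu using fun k => hA (Sum.inr (Sum.inl k))
    refine ⟨fun k => rs O' (u k), fun k => ?_⟩
    rw [VEmb.res_rs, hu]
    exact (rs_surj O (y' k)).choose_spec
  · choose u hu using fun k => hA (Sum.inr (Sum.inr k))
    refine ⟨fun k => O'.valuation (u k), fun k => ?_⟩
    rw [VEmb.val_valuation, hu]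
    exact pre_spec O (z' k)

/-- extension of a homomorphism of the units by zero -/
noncomputable def ext0 (b : O'.ValueGroupˣ →* P.ValueGroupˣ) : O'.ValueGroup →*₀ P.ValueGroup := by
  classical
  exact
  { toFun := fun γ => if h : γ = 0 then 0 else ((b (Units.mk0 γ h) : P.ValueGroupˣ) : P.ValueGroup)
    map_zero' := by simp
    map_one' := by
      rw [dif_neg one_ne_zero, Units.mk0_one, map_one, Units.val_one]
    map_mul' := by
      intro x y
      by_cases hx : x = 0
      · subst hx; simp
      · by_cases hy : y = 0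
        · subst hy; simp
        · rw [dif_neg hx, dif_neg hy, dif_neg (mul_ne_zero hx hy), ← Units.val_mul, ← map_mul,
            Units.mk0_mul] }

theorem ext0_unit (b : O'.ValueGroupˣ →* P.ValueGroupˣ) (γ : O'.ValueGroupˣ) :
    ext0 b (γ : O'.ValueGroup) = ((b γ : P.ValueGroupˣ) : P.ValueGroup) := by
  classical
  show (if h : (γ : O'.ValueGroup) = 0 then (0 : P.ValueGroup) else
    ((b (Units.mk0 (γ : O'.ValueGroup) h) : P.ValueGroupˣ) : P.ValueGroup)) = _
  rw [dif_neg γ.ne_zero, Units.mk0_val]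

theorem ext0_strictMono {b : O'.ValueGroupˣ →* P.ValueGroupˣ} (hb : StrictMono b) :
    StrictMono (ext0 b) := by
  intro x y h
  have hy : y ≠ 0 := (lt_of_le_of_lt zero_le h).ne'
  obtain ⟨v, rfl⟩ : ∃ v : O'.ValueGroupˣ, (v : O'.ValueGroup) = y := ⟨Units.mk0 y hy, rfl⟩
  rw [ext0_unit]
  by_cases hx : x = 0
  · subst hx
    rw [map_zero]
    exact zero_lt_iff.2 (Units.ne_zero _)
  · obtain ⟨u, rfl⟩ : ∃ u : O'.ValueGroupˣ, (u : O'.ValueGroup) = x := ⟨Units.mk0 x hx, rfl⟩
    rw [ext0_unit, Units.val_lt_val]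
    exact hb (Units.val_lt_val.1 h)

/-- the answer of the second player -/
theorem answer (hLT : S_LT) {s : OF.ValueGroupˣ →* Fˣ} {s' : O'.ValueGroupˣ →* F'ˣ}
    {ι : VEmb OF O'} {i' : VEmb O' O} {i : VEmb OF O} (hO : Big O) (j : VEmb OF P)
    (hF' : Countable F') (hh : HenselianLocalRing O') (hP : Big P) (hs : Sec OF s)
    (hs' : Sec O' s') (hi : ∀ x, i'.f (ι.f x) = i.f x)
    (hss : ∀ γ : OF.ValueGroupˣ, ((s' (Units.map ι.val γ) : F'ˣ) : F') = ι.f ((s γ : Fˣ) : F))
    (hp : Pure i) (ρ : ResidueField O' →+* ResidueField P) (hρ : ∀ r, ρ (ι.res r) = j.res r)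
    (b : O'.ValueGroupˣ →* P.ValueGroupˣ) (hb : StrictMono b)
    (hbj : ∀ γ, b (Units.map ι.val.toMonoidHom γ) = Units.map j.val.toMonoidHom γ) :
    ∃ j' : VEmb O' P, (∀ x, j'.f (ι.f x) = j.f x) ∧ (∀ r, j'.res r = ρ r) ∧
      ∀ γ : O'.ValueGroupˣ, Units.map j'.val.toMonoidHom γ = b γ := by
  have hc : CharZero (ResidueField O') := by
    have := hO.char
    exact RingHom.charZero i'.res
  have hν : ∀ γ, ext0 b (ι.val γ) = j.val γ := by
    intro γ
    by_cases h : γ = 0
    · subst h; rw [map_zero, map_zero, map_zero]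
    · have h1 := hbj (Units.mk0 γ h)
      have h2 := congrArg (fun u : P.ValueGroupˣ => (u : P.ValueGroup)) h1
      have h3 := ext0_unit b (Units.map ι.val.toMonoidHom (Units.mk0 γ h))
      have h4 : ((Units.map ι.val.toMonoidHom (Units.mk0 γ h) : O'.ValueGroupˣ) : O'.ValueGroup) =
        ι.val γ := rfl
      have h5 : ((Units.map j.val.toMonoidHom (Units.mk0 γ h) : P.ValueGroupˣ) : P.ValueGroup) =
        j.val γ := rfl
      rw [h4] at h3
      rw [h3]
      exact h2.trans h5
  obtain ⟨j', h1, h2, h3⟩ := hLT F F' L OF O' P s s' ι j ρ (ext0 b) hF' hh hc hP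
    (ext0_strictMono hb) hs hs' hss (pure_comp hi hp) hρ hν
  refine ⟨j', h1, h2, fun γ => ?_⟩
  apply Units.ext
  rw [← ext0_unit b γ, ← h3]
  rfl

theorem mapval_strictMono (i : VEmb OF O) :
    StrictMono (Units.map i.val.toMonoidHom : OF.ValueGroupˣ →* O.ValueGroupˣ) := by
  intro x y h
  rw [← Units.val_lt_val] at h ⊢
  exact i.val_strictMono h

theorem pure_iff (i : VEmb OF O) : Pure i ↔ ∀ (γ : O.ValueGroupˣ) (m : ℕ), 0 < m →
    γ ^ m ∈ Set.range (Units.map i.val.toMonoidHom : OF.ValueGroupˣ →* O.ValueGroupˣ) →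
    γ ∈ Set.range (Units.map i.val.toMonoidHom : OF.ValueGroupˣ →* O.ValueGroupˣ) := by
  constructor
  · rintro h γ m hm ⟨δ, hδ⟩
    obtain ⟨ε, hε⟩ := h (γ : O.ValueGroup) m hm ⟨(δ : OF.ValueGroup), by
      have := congrArg (fun u : O.ValueGroupˣ => (u : O.ValueGroup)) hδ
      simpa using this⟩
    have hε0 : ε ≠ 0 := by
      rintro rfl
      rw [map_zero] at hε
      exact γ.ne_zero hε.symm
    exact ⟨Units.mk0 ε hε0, Units.ext hε⟩
  · rintro h γ m hm ⟨δ, hδ⟩
    by_cases hγ : γ = 0
    · exact ⟨0, by rw [map_zero, hγ]⟩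
    · have hδ0 : δ ≠ 0 := by
        rintro rfl
        rw [map_zero] at hδ
        exact pow_ne_zero m hγ hδ.symm
      obtain ⟨ε, hε⟩ := h (Units.mk0 γ hγ) m hm ⟨Units.mk0 δ hδ0, Units.ext (by
        rw [Units.val_pow_eq_pow_val]
        exact hδ)⟩
      exact ⟨(ε : OF.ValueGroup), by
        have := congrArg (fun u : O.ValueGroupˣ => (u : O.ValueGroup)) hε
        exact this⟩

theorem countable_res (hF : Countable F) : Countable (ResidueField OF) := by
  have h1 : Countable OF := inferInstance
  exact Function.Surjective.countable (residue_surjective (R := OF))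

theorem countable_val (hF : Countable F) : Countable OF.ValueGroupˣ := by
  have h1 : Countable OF.ValueGroup := Function.Surjective.countable OF.valuation_surjective
  exact Function.Injective.countable (f := fun u : OF.ValueGroupˣ => (u : OF.ValueGroup))
    Units.val_injective

end

theorem t_CLAIM : S_EMB → S_RMOV → S_GMOV → S_PUR → S_LT → S_NICE → S_CLAIM := by
  intro hE hR hG hPU hLT hN n
  induction n with
  | zero =>
    intro F K L _ _ _ OF O P s i j hF hs hO hP h1 h2 g1 g2 X Y Z φ x y z h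
    exact (hE F L OF P j X Y Z φ x y z).2 ((hE F K OF O i X Y Z φ x y z).1 h)
  | succ n ih =>
    intro F K L _ _ _ OF O P s i j hF hs hO hP h1 h2 g1 g2 X Y Z φ x y z h
    obtain ⟨a, b, c, φ⟩ := φ
    by_cases ho : Odd (n + 1)
    · have hpi := h1 ho
      have hn : ¬ Odd n := fun h' => by
        rw [Nat.odd_add_one] at ho
        exact ho h'
      simp only [F3.Holds, if_pos ho] at h ⊢
      obtain ⟨x', y', z', h⟩ := h
      obtain ⟨F', iF, O', s', ι, i', hF', hh, hs', hi, hss, hpi', ⟨x'', hx⟩, ⟨y'', hy⟩, ⟨z'', hz⟩⟩ :=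
        move hN s i hF hs hO hpi x' y' z'
      obtain ⟨ρ, hρ, gR⟩ := (hR (ResidueField OF) (ResidueField O') (ResidueField O) (ResidueField P)
        ι.res (countable_res hF') n).1 ho i.res j.res i'.res (comp_res hi) g1
      obtain ⟨β, hβ, hβj, gG⟩ := (hG OF.ValueGroupˣ O'.ValueGroupˣ O.ValueGroupˣ P.ValueGroupˣ
        (Units.map ι.val.toMonoidHom) (countable_val hF') n).1 ho (Units.map i.val.toMonoidHom)
        (Units.map j.val.toMonoidHom) (Units.map i'.val.toMonoidHom) (mapval_strictMono i')
        (fun γ => Units.ext (comp_val hi (γ : OF.ValueGroup))) g2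
      obtain ⟨j', hj, hjr, hjv⟩ := answer hLT hO j hF' hh hP hs hs' hi hss hpi ρ hρ β hβ hβj
      have gR' : Game (RQ.holds (ResidueField O)) (RQ.holds (ResidueField P)) n
          (fun r => i'.res r) (fun r => j'.res r) := by
        have : (fun r => j'.res r) = fun r => ρ r := funext hjr
        rw [this]; exact gR
      have gG' : Game (GQ.holds O.ValueGroupˣ) (GQ.holds P.ValueGroupˣ) n
          (fun γ => Units.map i'.val.toMonoidHom γ) (fun γ => Units.map j'.val.toMonoidHom γ) := by
        have : (fun γ => Units.map j'.val.toMonoidHom γ) = fun γ => β γ := funext hjv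
        rw [this]; exact gG
      have hpj' : ¬ Odd n → n ≠ 0 → Pure j' := by
        intro h3 h4
        rw [pure_iff]
        exact (hPU O'.ValueGroupˣ O.ValueGroupˣ P.ValueGroupˣ n (Units.map i'.val.toMonoidHom)
          (Units.map j'.val.toMonoidHom) (Nat.pos_of_ne_zero h4) (mapval_strictMono i')
          (mapval_strictMono j') gG').2 h3 ((pure_iff i').1 hpi')
      have key := ih F' K L O' O P s' i' j' hF' hs' hO hP (fun h3 => absurd h3 hn) hpj' gR' gG'
        (X ⊕ Fin a) (Y ⊕ Fin b) (Z ⊕ Fin c) φ (Sum.elim (fun k => ι.f (x k)) x'')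
        (Sum.elim (fun k => ι.res (y k)) y'') (Sum.elim (fun k => ι.val (z k)) z'')
      have e1 : (fun k => i'.f (Sum.elim (fun k => ι.f (x k)) x'' k)) =
          Sum.elim (fun k => i.f (x k)) x' := by
        funext k; cases k
        · exact hi _
        · exact hx _
      have e2 : (fun k => i'.res (Sum.elim (fun k => ι.res (y k)) y'' k)) =
          Sum.elim (fun k => i.res (y k)) y' := by
        funext k; cases k
        · exact comp_res hi _
        · exact hy _
      have e3 : (fun k => i'.val (Sum.elim (fun k => ι.val (z k)) z'' k)) =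
          Sum.elim (fun k => i.val (z k)) z' := by
        funext k; cases k
        · exact comp_val hi _
        · exact hz _
      have e1' : (fun k => j'.f (Sum.elim (fun k => ι.f (x k)) x'' k)) =
          Sum.elim (fun k => j.f (x k)) (fun k => j'.f (x'' k)) := by
        funext k; cases k
        · exact hj _
        · rfl
      have e2' : (fun k => j'.res (Sum.elim (fun k => ι.res (y k)) y'' k)) =
          Sum.elim (fun k => j.res (y k)) (fun k => j'.res (y'' k)) := by
        funext k; cases k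
        · exact comp_res hj _
        · rfl
      have e3' : (fun k => j'.val (Sum.elim (fun k => ι.val (z k)) z'' k)) =
          Sum.elim (fun k => j.val (z k)) (fun k => j'.val (z'' k)) := by
        funext k; cases k
        · exact comp_val hj _
        · rfl
      rw [e1, e2, e3, e1', e2', e3'] at key
      exact ⟨_, _, _, key h⟩
    · have hpj := h2 ho (Nat.succ_ne_zero n)
      have hn : Odd n := by
        rw [Nat.odd_add_one, not_not] at ho
        exact ho
      simp only [F3.Holds, if_neg ho] at h ⊢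
      intro x' y' z'
      obtain ⟨F', iF, O', s', ι, j', hF', hh, hs', hj, hss, hpj', ⟨x'', hx⟩, ⟨y'', hy⟩, ⟨z'', hz⟩⟩ :=
        move hN s j hF hs hP hpj x' y' z'
      obtain ⟨ρ, hρ, gR⟩ := (hR (ResidueField OF) (ResidueField O') (ResidueField O) (ResidueField P)
        ι.res (countable_res hF') n).2 ho i.res j.res j'.res (comp_res hj) g1
      obtain ⟨β, hβ, hβi, gG⟩ := (hG OF.ValueGroupˣ O'.ValueGroupˣ O.ValueGroupˣ P.ValueGroupˣ
        (Units.map ι.val.toMonoidHom) (countable_val hF') n).2 ho (Units.map i.val.toMonoidHom)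
        (Units.map j.val.toMonoidHom) (Units.map j'.val.toMonoidHom) (mapval_strictMono j')
        (fun γ => Units.ext (comp_val hj (γ : OF.ValueGroup))) g2
      obtain ⟨i', hi, hir, hiv⟩ := answer hLT hP i hF' hh hO hs hs' hj hss hpj ρ hρ β hβ hβi
      have gR' : Game (RQ.holds (ResidueField O)) (RQ.holds (ResidueField P)) n
          (fun r => i'.res r) (fun r => j'.res r) := by
        have : (fun r => i'.res r) = fun r => ρ r := funext hir
        rw [this]; exact gR
      have gG' : Game (GQ.holds O.ValueGroupˣ) (GQ.holds P.ValueGroupˣ) n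
          (fun γ => Units.map i'.val.toMonoidHom γ) (fun γ => Units.map j'.val.toMonoidHom γ) := by
        have : (fun γ => Units.map i'.val.toMonoidHom γ) = fun γ => β γ := funext hiv
        rw [this]; exact gG
      have hpi' : Odd n → Pure i' := by
        intro h3
        rw [pure_iff]
        exact (hPU O'.ValueGroupˣ O.ValueGroupˣ P.ValueGroupˣ n (Units.map i'.val.toMonoidHom)
          (Units.map j'.val.toMonoidHom) h3.pos (mapval_strictMono i')
          (mapval_strictMono j') gG').1 h3 ((pure_iff j').1 hpj')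
      have key := ih F' K L O' O P s' i' j' hF' hs' hO hP hpi' (fun h3 => absurd hn h3) gR' gG'
        (X ⊕ Fin a) (Y ⊕ Fin b) (Z ⊕ Fin c) φ (Sum.elim (fun k => ι.f (x k)) x'')
        (Sum.elim (fun k => ι.res (y k)) y'') (Sum.elim (fun k => ι.val (z k)) z'')
      have e1 : (fun k => j'.f (Sum.elim (fun k => ι.f (x k)) x'' k)) =
          Sum.elim (fun k => j.f (x k)) x' := by
        funext k; cases k
        · exact hj _
        · exact hx _
      have e2 : (fun k => j'.res (Sum.elim (fun k => ι.res (y k)) y'' k)) =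
          Sum.elim (fun k => j.res (y k)) y' := by
        funext k; cases k
        · exact comp_res hj _
        · exact hy _
      have e3 : (fun k => j'.val (Sum.elim (fun k => ι.val (z k)) z'' k)) =
          Sum.elim (fun k => j.val (z k)) z' := by
        funext k; cases k
        · exact comp_val hj _
        · exact hz _
      have e1' : (fun k => i'.f (Sum.elim (fun k => ι.f (x k)) x'' k)) =
          Sum.elim (fun k => i.f (x k)) (fun k => i'.f (x'' k)) := by
        funext k; cases k
        · exact hi _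
        · rfl
      have e2' : (fun k => i'.res (Sum.elim (fun k => ι.res (y k)) y'' k)) =
          Sum.elim (fun k => i.res (y k)) (fun k => i'.res (y'' k)) := by
        funext k; cases k
        · exact comp_res hi _
        · rfl
      have e3' : (fun k => i'.val (Sum.elim (fun k => ι.val (z k)) z'' k)) =
          Sum.elim (fun k => i.val (z k)) (fun k => i'.val (z'' k)) := by
        funext k; cases k
        · exact comp_val hi _
        · rfl
      rw [e1, e2, e3, e1', e2', e3'] at key
      exact key (h _ _ _)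

end Pool.Agent.U467.AK
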